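import Mathlib

/-!
# Project KS (MP_005a57_co): strong (k,n)-shuffles of nearly linear length

Definitions and basic lemmas.  `EP ℓ F` is the expectation of `F σ` for the random permutation
`σ = T_l ⋯ T_1` (the head of the list acts first).  `ES ℓ Φ S` is the expectation of `Φ (σ S)`.
-/

set_option autoImplicit false

namespace Pool.Agent.Q173.KS

open Finset

/-- a lazy transposition: swap `a` and `b` with probability `p` -/
structure Op (α : Type) where
  a : α
  b : α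
  p : ℝ

/-- validity of a list of lazy transpositions -/
def Ok {α : Type} (ℓ : List (Op α)) : Prop := ∀ o ∈ ℓ, o.a ≠ o.b ∧ 0 ≤ o.p ∧ o.p ≤ 1

/-- relabelling -/
def Op.map {α β : Type} (e : α → β) (o : Op α) : Op β := ⟨e o.a, e o.b, o.p⟩

section
variable {α : Type} [DecidableEq α]

/-- expectation of `F σ`, `σ = T_l ⋯ T_1` -/
def EP : List (Op α) → (Equiv.Perm α → ℝ) → ℝ
  | [], F => F 1
  | o :: ℓ, F => (1 - o.p) * EP ℓ F + o.p * EP ℓ (fun σ => F (σ * Equiv.swap o.a o.b))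

/-- expectation of `Φ (σ S)` -/
def ES (ℓ : List (Op α)) (Φ : Finset α → ℝ) (S : Finset α) : ℝ :=
  EP ℓ (fun σ => Φ (S.map σ.toEmbedding))

/-- `k`-wise uniformity: for `j ≤ k` the law of the images of `j` distinct points does not
depend on the points -/
def Uni (k : ℕ) (ℓ : List (Op α)) : Prop :=
  ∀ j ≤ k, ∀ (F : (Fin j → α) → ℝ) (x y : Fin j → α), Function.Injective x →
    Function.Injective y →
    EP ℓ (fun σ => F (fun i => σ (x i))) = EP ℓ (fun σ => F (fun i => σ (y i)))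

/-- `Φ` is invariant (on sets with at most `k` elements) under permutations of `X` -/
def InvOn (k : ℕ) (X : Finset α) (Φ : Finset α → ℝ) : Prop :=
  ∀ S S' : Finset α, S.card ≤ k → S \ X = S' \ X → (S ∩ X).card = (S' ∩ X).card → Φ S = Φ S'

/-- the linear relations which say that the signs add up to zero -/
def Rel (k : ℕ) [Fintype α] (Φ : Finset α → ℝ) : Prop :=
  ∀ S : Finset α, S.card < k → ∑ x ∈ Sᶜ, Φ (insert x S) + ∑ x ∈ S, Φ (S.erase x) = 0

@[simp] lemma EP_nil (F : Equiv.Perm α → ℝ) : EP [] F = F 1 := rfl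

lemma EP_cons (o : Op α) (ℓ : List (Op α)) (F : Equiv.Perm α → ℝ) :
    EP (o :: ℓ) F = (1 - o.p) * EP ℓ F
      + o.p * EP ℓ (fun σ => F (σ * Equiv.swap o.a o.b)) := rfl

lemma EP_append (ℓ₁ ℓ₂ : List (Op α)) (F : Equiv.Perm α → ℝ) :
    EP (ℓ₁ ++ ℓ₂) F = EP ℓ₁ (fun σ₁ => EP ℓ₂ (fun σ₂ => F (σ₂ * σ₁))) := by
  induction ℓ₁ generalizing F with
  | nil => simp
  | cons o ℓ ih =>
    rw [List.cons_append, EP_cons, EP_cons, ih, ih]
    simp only [mul_assoc]

lemma EP_const (ℓ : List (Op α)) (c : ℝ) : EP ℓ (fun _ => c) = c := by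
  induction ℓ with
  | nil => rfl
  | cons o ℓ ih => rw [EP_cons, ih]; ring

lemma EP_add (ℓ : List (Op α)) (F G : Equiv.Perm α → ℝ) :
    EP ℓ (fun σ => F σ + G σ) = EP ℓ F + EP ℓ G := by
  induction ℓ generalizing F G with
  | nil => rfl
  | cons o ℓ ih => simp only [EP_cons]; rw [ih, ih]; ring

lemma EP_mul (ℓ : List (Op α)) (c : ℝ) (F : Equiv.Perm α → ℝ) :
    EP ℓ (fun σ => c * F σ) = c * EP ℓ F := by
  induction ℓ generalizing F with
  | nil => rfl
  | cons o ℓ ih => simp only [EP_cons]; rw [ih, ih]; ring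

lemma EP_neg (ℓ : List (Op α)) (F : Equiv.Perm α → ℝ) :
    EP ℓ (fun σ => - F σ) = - EP ℓ F := by
  have := EP_mul ℓ (-1) F
  simpa using this

lemma EP_sub (ℓ : List (Op α)) (F G : Equiv.Perm α → ℝ) :
    EP ℓ (fun σ => F σ - G σ) = EP ℓ F - EP ℓ G := by
  simp only [sub_eq_add_neg]
  rw [EP_add, EP_neg]

lemma EP_sum {ι : Type*} (ℓ : List (Op α)) (s : Finset ι) (F : ι → Equiv.Perm α → ℝ) :
    EP ℓ (fun σ => ∑ i ∈ s, F i σ) = ∑ i ∈ s, EP ℓ (F i) := by
  classical
  induction s using Finset.induction_on with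
  | empty => simpa using EP_const ℓ 0
  | insert a s ha ih =>
    simp only [Finset.sum_insert ha]
    rw [EP_add, ih]

lemma EP_mono {ℓ : List (Op α)} (hℓ : Ok ℓ) {F G : Equiv.Perm α → ℝ} (h : ∀ σ, F σ ≤ G σ) :
    EP ℓ F ≤ EP ℓ G := by
  induction ℓ generalizing F G with
  | nil => exact h 1
  | cons o ℓ ih =>
    have h1 := hℓ o (by simp)
    have h2 : Ok ℓ := fun o' ho' => hℓ o' (by simp [ho'])
    rw [EP_cons, EP_cons]
    have h3 := ih h2 h
    have h4 := ih h2 (F := fun σ => F (σ * Equiv.swap o.a o.b))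
      (G := fun σ => G (σ * Equiv.swap o.a o.b)) (fun σ => h _)
    have h5 : 0 ≤ 1 - o.p := by linarith [h1.2.2]
    exact add_le_add (mul_le_mul_of_nonneg_left h3 h5) (mul_le_mul_of_nonneg_left h4 h1.2.1)

lemma EP_abs_le {ℓ : List (Op α)} (hℓ : Ok ℓ) {F : Equiv.Perm α → ℝ} {c : ℝ}
    (h : ∀ σ, |F σ| ≤ c) : |EP ℓ F| ≤ c := by
  rw [abs_le]
  constructor
  · rw [← EP_const ℓ (-c)]
    exact EP_mono hℓ (fun σ => (abs_le.1 (h σ)).1)
  · rw [← EP_const ℓ c]
    exact EP_mono hℓ (fun σ => (abs_le.1 (h σ)).2)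

/-- the permutations produced by `ℓ` satisfy every property closed under the swaps of `ℓ` -/
lemma EP_congr {ℓ : List (Op α)} {P : Equiv.Perm α → Prop} (h1 : P 1)
    (hs : ∀ o ∈ ℓ, ∀ σ, P σ → P (σ * Equiv.swap o.a o.b)) {F G : Equiv.Perm α → ℝ}
    (h : ∀ σ, P σ → F σ = G σ) : EP ℓ F = EP ℓ G := by
  induction ℓ generalizing F G with
  | nil => exact h 1 h1
  | cons o ℓ ih =>
    have h2 : ∀ o' ∈ ℓ, ∀ σ, P σ → P (σ * Equiv.swap o'.a o'.b) :=
      fun o' ho' => hs o' (by simp [ho'])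
    rw [EP_cons, EP_cons, ih h2 h]
    congr 2
    exact ih h2 (fun σ hσ => h _ (hs o (by simp) σ hσ))

/-- permutations produced by `ℓ` fix all points not moved by the swaps of `ℓ` -/
lemma EP_congr_fix {ℓ : List (Op α)} {Y : Set α} (hY : ∀ o ∈ ℓ, o.a ∉ Y ∧ o.b ∉ Y)
    {F G : Equiv.Perm α → ℝ} (h : ∀ σ : Equiv.Perm α, (∀ y ∈ Y, σ y = y) → F σ = G σ) :
    EP ℓ F = EP ℓ G := by
  refine EP_congr (P := fun σ => ∀ y ∈ Y, σ y = y) (fun _ _ => rfl) ?_ h
  intro o ho σ hσ y hy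
  have h1 := hY o ho
  have h2 : y ≠ o.a := by rintro rfl; exact h1.1 hy
  have h3 : y ≠ o.b := by rintro rfl; exact h1.2 hy
  rw [Equiv.Perm.mul_apply, Equiv.swap_apply_of_ne_of_ne h2 h3]
  exact hσ y hy

lemma viaEmbedding_swap {β : Type} [DecidableEq β] (e : α ↪ β) (a b : α) :
    (Equiv.swap a b).viaEmbedding e = Equiv.swap (e a) (e b) := by
  classical
  ext x
  by_cases hx : x ∈ Set.range e
  · obtain ⟨y, rfl⟩ := hx
    rw [Equiv.Perm.viaEmbedding_apply, e.injective.swap_apply]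
  · rw [Equiv.Perm.viaEmbedding_apply_of_notMem _ _ _ hx,
      Equiv.swap_apply_of_ne_of_ne (fun h => hx ⟨a, h.symm⟩) (fun h => hx ⟨b, h.symm⟩)]

/-- relabelling along an embedding -/
lemma EP_map {β : Type} [DecidableEq β] (e : α ↪ β) (ℓ : List (Op α))
    (F : Equiv.Perm β → ℝ) :
    EP (ℓ.map (Op.map e)) F = EP ℓ (fun σ => F (σ.viaEmbedding e)) := by
  induction ℓ generalizing F with
  | nil =>
    have : (1 : Equiv.Perm α).viaEmbedding e = 1 := map_one (Equiv.Perm.viaEmbeddingHom e)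
    simp [this]
  | cons o ℓ ih =>
    rw [List.map_cons, EP_cons, EP_cons, ih, ih]
    simp only [Op.map]
    congr 3
    funext σ
    have h : (σ * Equiv.swap o.a o.b).viaEmbedding e
        = σ.viaEmbedding e * (Equiv.swap o.a o.b).viaEmbedding e :=
      map_mul (Equiv.Perm.viaEmbeddingHom e) _ _
    rw [h, viaEmbedding_swap]

omit [DecidableEq α] in
lemma Ok.append {ℓ₁ ℓ₂ : List (Op α)} (h₁ : Ok ℓ₁) (h₂ : Ok ℓ₂) : Ok (ℓ₁ ++ ℓ₂) := by
  intro o ho
  rcases List.mem_append.1 ho with h | h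
  · exact h₁ o h
  · exact h₂ o h

omit [DecidableEq α] in
lemma Ok.map {β : Type} {ℓ : List (Op α)} (h : Ok ℓ) (e : α ↪ β) :
    Ok (ℓ.map (Op.map e)) := by
  intro o ho
  obtain ⟨o', ho', rfl⟩ := List.mem_map.1 ho
  obtain ⟨h1, h2, h3⟩ := h o' ho'
  exact ⟨fun h => h1 (e.injective h), h2, h3⟩

lemma ES_append (ℓ₁ ℓ₂ : List (Op α)) (Φ : Finset α → ℝ) (S : Finset α) :
    ES (ℓ₁ ++ ℓ₂) Φ S = ES ℓ₁ (ES ℓ₂ Φ) S := by
  unfold ES
  rw [EP_append]
  congr 1
  funext σ₁
  congr 1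
  funext σ₂
  rw [Finset.map_map]
  congr 1

lemma ES_nil (Φ : Finset α → ℝ) (S : Finset α) : ES [] Φ S = Φ S := by
  unfold ES
  rw [EP_nil]
  congr 1
  ext x
  rw [Finset.mem_map_equiv]
  rfl

lemma ES_congr_card {ℓ : List (Op α)} {k : ℕ} {Φ Ψ : Finset α → ℝ}
    (h : ∀ S, S.card ≤ k → Φ S = Ψ S) {S : Finset α} (hS : S.card ≤ k) :
    ES ℓ Φ S = ES ℓ Ψ S := by
  unfold ES
  congr 1
  funext σ
  exact h _ (by rwa [Finset.card_map])

/-- functions of the cardinality are fixed -/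
lemma ES_card (ℓ : List (Op α)) (u : ℕ → ℝ) (S : Finset α) :
    ES ℓ (fun S => u S.card) S = u S.card := by
  unfold ES
  simp only [Finset.card_map]
  exact EP_const ℓ _

/-- the relations `Rel` are preserved -/
lemma Rel.ES [Fintype α] {k : ℕ} {Φ : Finset α → ℝ} (h : Rel k Φ) (ℓ : List (Op α)) :
    Rel k (ES ℓ Φ) := by
  intro S hS
  unfold KS.ES
  rw [← EP_sum, ← EP_sum, ← EP_add]
  rw [show (0 : ℝ) = EP ℓ (fun _ => 0) from (EP_const ℓ 0).symm]
  congr 1
  funext σ
  have h1 := h (S.map σ.toEmbedding) (by rwa [Finset.card_map])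
  rw [← h1]
  congr 1
  · rw [show (S.map σ.toEmbedding)ᶜ = (Sᶜ).map σ.toEmbedding by
      ext x; simp [Finset.mem_map_equiv]]
    rw [Finset.sum_map]
    refine Finset.sum_congr rfl (fun x _ => ?_)
    rw [Finset.map_insert]
  · rw [Finset.sum_map]
    refine Finset.sum_congr rfl (fun x _ => ?_)
    rw [← Finset.map_erase]

end

section pairs
variable {I : Type} [Fintype I] [DecidableEq I]

/-- the left half -/
def Lf (I : Type) [Fintype I] [DecidableEq I] : Finset (Bool × I) :=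
  univ.filter (fun x => x.1 = false)

/-- the right half -/
def Rt (I : Type) [Fintype I] [DecidableEq I] : Finset (Bool × I) :=
  univ.filter (fun x => x.1 = true)

/-- the sign of a position: `1` on the left, `-1` on the right -/
def sg (x : Bool × I) : ℝ := if x.1 then -1 else 1

/-- product of the signs -/
def Phi0 (S : Finset (Bool × I)) : ℝ := ∏ x ∈ S, sg x

/-- the list of the lazy swaps of all pairs `(false,i), (true,i)` with probabilities `p i` -/
noncomputable def pairsP (p : I → ℝ) : List (Op (Bool × I)) :=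
  (univ : Finset I).toList.map (fun i => ⟨(false, i), (true, i), p i⟩)

/-- the embedding of the indices as the right half -/
def emR (I : Type) : I ↪ Bool × I := ⟨fun i => (true, i), fun _ _ h => (Prod.mk.inj h).2⟩

/-- the embedding of the indices as the left half -/
def emL (I : Type) : I ↪ Bool × I := ⟨fun i => (false, i), fun _ _ h => (Prod.mk.inj h).2⟩

/-- `ℓ` bisects `k`-wise exactly -/
def Bis (k : ℕ) (ℓ : List (Op (Bool × I))) : Prop :=
  ∃ u : ℕ → ℝ, ∀ S : Finset (Bool × I), S.card ≤ k → ES ℓ Phi0 S = u S.card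

end pairs

/-- the expectation of the product of `j` signs for `N` plus and `N` minus signs in random
order -/
noncomputable def uu (N : ℕ) : ℕ → ℝ
  | 0 => 1
  | 1 => 0
  | (j + 2) => -(((j : ℝ) + 1) / (2 * N - j - 1)) * uu N j

/-- the star with centre `l` (the head of `xs` is used last, with the smallest probability) -/
noncomputable def starL {α : Type} (l : α) : List α → List (Op α)
  | [] => []
  | x :: xs => starL l xs ++ [⟨l, x, 1 / ((xs.length : ℝ) + 2)⟩]

/-- there is a `k`-wise uniform shuffle of `α` with at most `m` lazy transpositions -/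
def Has (k : ℕ) (α : Type) [DecidableEq α] (m : ℕ) : Prop :=
  ∃ ℓ : List (Op α), Ok ℓ ∧ Uni k ℓ ∧ ℓ.length ≤ m

end Pool.Agent.Q173.KS
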