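import Mathlib

/-!
# Strong (k,n)-shuffles by lazy transpositions: the definitions (MP_005a57_co)
-/

set_option autoImplicit false

namespace Pool.Agent.Q173.KS

/-- The permutation `T_1 T_2 ⋯ T_l` when the coins show `ω`: the `i`-th factor `T_i` is the
transposition of `a i` and `b i` if `ω i = true`, and the identity otherwise. -/
def outcome {n l : ℕ} (a b : Fin l → Fin n) (ω : Fin l → Bool) : Equiv.Perm (Fin n) :=
  (List.ofFn fun i => if ω i then Equiv.swap (a i) (b i) else 1).prod

open Classical in
/-- The probability that `σ = T_1 T_2 ⋯ T_l` lies in the event `A`, where the lazy transpositions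
`T_i` with parameters `(a i, b i, p i)` are independent: the coin vector `ω` has probability
`∏ i, (p i or 1 - p i)`. -/
noncomputable def prob {n l : ℕ} (a b : Fin l → Fin n) (p : Fin l → ℝ)
    (A : Set (Equiv.Perm (Fin n))) : ℝ :=
  ∑ ω : Fin l → Bool, if outcome a b ω ∈ A then ∏ i, (if ω i then p i else 1 - p i) else 0

/-- The lazy transpositions with parameters `(a i, b i, p i)`, `i = 1, …, l`, form a strong
`(k,n)`-shuffle of length `l`: for all `x_1 < ⋯ < x_k` the tuple `(σ x_1, …, σ x_k)` is
uniformly distributed on the `n (n-1) ⋯ (n-k+1)` tuples `y` of distinct elements. -/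
structure IsStrongShuffle (k : ℕ) {n l : ℕ} (a b : Fin l → Fin n) (p : Fin l → ℝ) : Prop where
  ne : ∀ i, a i ≠ b i
  nonneg : ∀ i, 0 ≤ p i
  le_one : ∀ i, p i ≤ 1
  uniform : ∀ x y : Fin k → Fin n, StrictMono x → Function.Injective y →
    prob a b p {σ | ∀ i, σ (x i) = y i} = 1 / (n.descFactorial k : ℝ)

/-- the set of the lengths of the strong `(k,n)`-shuffles -/
def lengths (k n : ℕ) : Set ℕ :=
  {l | ∃ (a b : Fin l → Fin n) (p : Fin l → ℝ), IsStrongShuffle k a b p}

/-- the least length of a strong `(k,n)`-shuffle -/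
noncomputable def Uall (k n : ℕ) : ℕ := sInf (lengths k n)

end Pool.Agent.Q173.KS
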