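import Pool.Agent.Q173.KS.Base
import Pool.Agent.Q173.KS.Prob

/-!
# Project KS: the statements of the lemma jobs
-/

set_option autoImplicit false

namespace Pool.Agent.Q173.KS

open Finset Filter

/-! ### stars and insertion -/

/-- JOB STAR: every point of `l :: xs` ends at `l` with the same probability. -/
def S_STAR : Prop :=
  ∀ (α : Type) [DecidableEq α] (l : α) (xs : List α), (l :: xs).Nodup →
    ∀ z ∈ l :: xs, EP (starL l xs) (fun σ => if σ z = l then (1 : ℝ) else 0)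
      = 1 / ((xs.length : ℝ) + 1)

/-- JOB ADD: one more point. -/
def S_ADD : Prop :=
  ∀ (α : Type) [Fintype α] [DecidableEq α] (k m : ℕ), Has k α m →
    Has k (Option α) (m + Fintype.card α)

/-- JOB FIX: lists which do not touch `Y` preserve the invariance on `Y`. -/
def S_FIX : Prop :=
  ∀ (α : Type) [DecidableEq α] (k : ℕ) (Y : Finset α) (Φ : Finset α → ℝ) (ℓ : List (Op α)),
    (∀ o ∈ ℓ, o.a ∉ Y ∧ o.b ∉ Y) → InvOn k Y Φ → InvOn k Y (ES ℓ Φ)

/-- JOB INS1: one star inserts its centre into the invariant set. -/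
def S_INS1 : Prop :=
  ∀ (α : Type) [DecidableEq α] (k : ℕ) (X : Finset α) (l : α) (Φ : Finset α → ℝ),
    l ∉ X → InvOn k X Φ → InvOn k (insert l X) (ES (starL l X.toList) Φ)

/-- JOB INS: insertion of the points of `Z` one after the other. -/
def S_INS : Prop :=
  ∀ (α : Type) [DecidableEq α] (X Z : Finset α), Disjoint X Z →
    ∃ ℓ : List (Op α), Ok ℓ ∧ ℓ.length ≤ Z.card * (X ∪ Z).card ∧
      (∀ o ∈ ℓ, o.a ∈ X ∪ Z ∧ o.b ∈ X ∪ Z) ∧
      ∀ (k : ℕ) (Φ : Finset α → ℝ), InvOn k X Φ → InvOn k (X ∪ Z) (ES ℓ Φ)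

/-- JOB SUM: a list inside `X` preserves the sum over all `j`-subsets of `X`. -/
def S_SUM : Prop :=
  ∀ (α : Type) [DecidableEq α] (X : Finset α) (j : ℕ) (Φ : Finset α → ℝ) (ℓ : List (Op α)),
    (∀ o ∈ ℓ, o.a ∈ X ∧ o.b ∈ X) →
    ∑ S ∈ X.powersetCard j, ES ℓ Φ S = ∑ S ∈ X.powersetCard j, Φ S

/-! ### rounds -/

/-- JOB HIT: if the law of the images of `j` points does not depend on the points, then the
number of points of `B` which are moved into `A` has a law which depends only on the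
cardinalities; `min |A| |B|`-wise uniformity is enough. -/
def S_HIT : Prop :=
  ∀ (I : Type) [Fintype I] [DecidableEq I] (j : ℕ) (ℓ : List (Op I)), Uni j ℓ →
    ∀ (φ : ℕ → ℝ) (A B A' B' : Finset I), A.card = A'.card → B.card = B'.card →
      min A.card B.card ≤ j →
      EP ℓ (fun σ => φ ((A ∩ B.map σ.toEmbedding).card))
        = EP ℓ (fun σ => φ ((A' ∩ B'.map σ.toEmbedding).card))

/-- the permutation which swaps the pairs with index in `D` -/
def swD {I : Type} [DecidableEq I] (D : Finset I) : Equiv.Perm (Bool × I) :=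
  { toFun := fun x => if x.2 ∈ D then (!x.1, x.2) else x
    invFun := fun x => if x.2 ∈ D then (!x.1, x.2) else x
    left_inv := by intro x; by_cases h : x.2 ∈ D <;> simp [h]
    right_inv := by intro x; by_cases h : x.2 ∈ D <;> simp [h] }

/-- JOB PAIRS: explicit law of the lazy pair swaps. -/
def S_PAIRS : Prop :=
  ∀ (I : Type) [Fintype I] [DecidableEq I] (p : I → ℝ) (F : Equiv.Perm (Bool × I) → ℝ),
    EP (pairsP p) F = ∑ D : Finset I, (∏ i ∈ D, p i) * (∏ i ∈ Dᶜ, (1 - p i)) * F (swD D)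

/-- the indices of the left and of the right part of a set of positions -/
def pL {I : Type} [Fintype I] [DecidableEq I] (S : Finset (Bool × I)) : Finset I :=
  univ.filter (fun i => (false, i) ∈ S)

/-- the indices of the right part -/
def pR {I : Type} [Fintype I] [DecidableEq I] (S : Finset (Bool × I)) : Finset I :=
  univ.filter (fun i => (true, i) ∈ S)

/-- JOB DIAG: after the pair swaps (all with probability `1/2`) the state depends only on
the two cardinalities and the number of full pairs. -/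
def S_DIAG : Prop :=
  ∀ (I : Type) [Fintype I] [DecidableEq I] (k : ℕ) (Φ : Finset (Bool × I) → ℝ),
    InvOn k (Lf I) Φ → InvOn k (Rt I) Φ →
    ∀ S S' : Finset (Bool × I), S.card ≤ k → (pL S).card = (pL S').card →
      (pR S).card = (pR S').card → (pL S ∩ pR S).card = (pL S' ∩ pR S').card →
      ES (pairsP (fun _ => 1 / 2)) Φ S = ES (pairsP (fun _ => 1 / 2)) Φ S'

/-- JOB ROUND: one round (a shuffle of the right half of order `k / 2`, then, on the level of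
states before it, the pair swaps) preserves the invariance. -/
def S_ROUND : Prop :=
  ∀ (I : Type) [Fintype I] [DecidableEq I] (k : ℕ) (ℓ : List (Op I)), Uni (k / 2) ℓ →
    ∀ Φ : Finset (Bool × I) → ℝ, InvOn k (Lf I) Φ → InvOn k (Rt I) Φ →
      InvOn k (Lf I) (ES (ℓ.map (Op.map (emR I))) (ES (pairsP (fun _ => 1 / 2)) Φ)) ∧
      InvOn k (Rt I) (ES (ℓ.map (Op.map (emR I))) (ES (pairsP (fun _ => 1 / 2)) Φ))

/-- JOB HALF: the pair swaps contract on sets without full pair. -/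
def S_HALF : Prop :=
  ∀ (I : Type) [Fintype I] [DecidableEq I] (k : ℕ), k ≤ Fintype.card I →
    ∀ (D : Finset (Bool × I) → ℝ) (δ : ℝ), InvOn k (Lf I) D → InvOn k (Rt I) D → Rel k D →
      (∀ S, S.card ≤ k → |D S| ≤ δ) →
      ∀ S : Finset (Bool × I), S.card ≤ k → S.Nonempty → Disjoint (pL S) (pR S) →
        |ES (pairsP (fun _ => 1 / 2)) D S| ≤ k * δ / Fintype.card I

/-- JOB CONTR: one round contracts. -/
def S_CONTR : Prop :=
  ∀ (I : Type) [Fintype I] [DecidableEq I] (k : ℕ), k ≤ Fintype.card I → 0 < Fintype.card I →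
    ∀ (ℓ : List (Op I)), Ok ℓ → Uni (k / 2) ℓ →
    ∀ (D : Finset (Bool × I) → ℝ) (δ : ℝ), InvOn k (Lf I) D → InvOn k (Rt I) D → Rel k D →
      D ∅ = 0 → (∀ S, S.card ≤ k → |D S| ≤ δ) →
      ∀ S : Finset (Bool × I), S.card ≤ k →
        |ES (ℓ.map (Op.map (emR I))) (ES (pairsP (fun _ => 1 / 2)) D) S|
          ≤ ((k : ℝ) + k ^ 2) / Fintype.card I * δ

/-- JOB INIT: facts on the initial state and on `uu`. -/
def S_INIT : Prop :=
  (∀ (I : Type) [Fintype I] [DecidableEq I] (k : ℕ), InvOn k (Lf I) Phi0 ∧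
    InvOn k (Rt I) Phi0 ∧ Rel k (Phi0 (I := I)) ∧ (∀ S : Finset (Bool × I), |Phi0 S| = 1)) ∧
  (∀ (I : Type) [Fintype I] [DecidableEq I] (k : ℕ), k ≤ Fintype.card I →
    Rel k (fun S : Finset (Bool × I) => uu (Fintype.card I) S.card)) ∧
  (∀ N j : ℕ, j ≤ N → |uu N j| ≤ 1)

/-- JOB PHASE: `r` rounds bring the state close to the uniform one. -/
def S_PHASE : Prop :=
  ∀ (I : Type) [Fintype I] [DecidableEq I] (k : ℕ), k ≤ Fintype.card I → 0 < Fintype.card I →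
    ∀ (m : ℕ), Has (k / 2) I m → ∀ r : ℕ,
    ∃ ℓ : List (Op (Bool × I)), Ok ℓ ∧ ℓ.length ≤ r * (m + Fintype.card I) ∧
      InvOn k (Lf I) (ES ℓ Phi0) ∧ InvOn k (Rt I) (ES ℓ Phi0) ∧
      ∀ S : Finset (Bool × I), S.card ≤ k →
        |ES ℓ Phi0 S - uu (Fintype.card I) S.card|
          ≤ 2 * (((k : ℝ) + k ^ 2) / Fintype.card I) ^ r

/-! ### the special pairs -/

/-- JOB SPEC: the state with `k` special pairs. `w j` is the value of the main state at the
`j`-subsets of the left half. -/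
def S_SPEC : Prop :=
  ∀ (I : Type) [Fintype I] [DecidableEq I] (k c : ℕ) (ℓ : List (Op (Bool × I))), Ok ℓ →
    InvOn k (Lf I) (ES ℓ Phi0) → InvOn k (Rt I) (ES ℓ Phi0) →
    ∀ (w : ℕ → ℝ), (∀ S : Finset (Bool × I), S ⊆ Lf I → S.card ≤ k → ES ℓ Phi0 S = w S.card) →
    ∀ (μ : Fin c → ℝ), (∀ t, |μ t| ≤ 1) →
    ∃ ℓ' : List (Op (Bool × (I ⊕ Fin c))), Ok ℓ' ∧ ℓ'.length ≤ ℓ.length + c ∧
      InvOn k (univ.filter (fun x => x.1 = false ∧ x.2.isLeft = true)) (ES ℓ' Phi0) ∧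
      InvOn k (univ.filter (fun x => x.1 = true ∧ x.2.isLeft = true)) (ES ℓ' Phi0) ∧
      ∀ j ≤ k, ∑ S ∈ (Lf (I ⊕ Fin c)).powersetCard j, ES ℓ' Phi0 S
        = ∑ i ∈ range (j + 1), (∑ T ∈ (univ : Finset (Fin c)).powersetCard i, ∏ t ∈ T, μ t)
            * ((Fintype.card I).choose (j - i) : ℝ) * w (j - i)

/-- JOB REL: an invariant state which satisfies the relations and has the right values on the
left half is the uniform state. -/
def S_REL : Prop :=
  ∀ (J : Type) [Fintype J] [DecidableEq J] (k : ℕ), k ≤ Fintype.card J →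
    ∀ Φ : Finset (Bool × J) → ℝ, InvOn k (Lf J) Φ → InvOn k (Rt J) Φ → Rel k Φ →
      (∀ j ≤ k, ∑ S ∈ (Lf J).powersetCard j, Φ S
        = ((Fintype.card J).choose j : ℝ) * uu (Fintype.card J) j) →
      ∀ S : Finset (Bool × J), S.card ≤ k → Φ S = uu (Fintype.card J) S.card

/-- JOB BIS: the exact bisection. -/
def S_BIS : Prop :=
  ∀ k : ℕ, 1 ≤ k → ∃ N₀ r : ℕ, ∀ N ≥ N₀, ∀ m : ℕ, Has (k / 2) (Fin N) m →
    ∃ ℓ : List (Op (Bool × (Fin N ⊕ Fin k))), Ok ℓ ∧ Bis k ℓ ∧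
      ℓ.length ≤ r * (m + N) + k + 2 * (k * (N + k))

/-! ### analysis -/

/-- the truncated generating series -/
noncomputable def GG (N : ℕ) : PowerSeries ℝ :=
  PowerSeries.mk fun j => (N.choose j : ℝ) * uu N j

/-- the limit series: reversed monic Chebyshev polynomials -/
noncomputable def AA : ℕ → PowerSeries ℝ
  | 0 => 2
  | 1 => 1
  | (n + 2) => AA (n + 1) - PowerSeries.C (1 / 4 : ℝ) * PowerSeries.X ^ 2 * AA n

/-- JOB REC: recursion of the series `GG` (Legendre recursion). -/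
def S_REC : Prop :=
  ∀ (N j : ℕ), j + 3 ≤ N →
    ((N + 1).choose (j + 2) : ℝ) * uu (N + 1) (j + 2)
      = (N.choose (j + 2) : ℝ) * uu N (j + 2)
        - (N : ℝ) ^ 2 / (4 * (N : ℝ) ^ 2 - 1) * (((N - 1).choose j : ℝ) * uu (N - 1) j)

/-- JOB LIM: limit of the quotients. -/
def S_LIM : Prop :=
  ∀ (k : ℕ), 1 ≤ k → ∀ j ≤ k, Tendsto (fun N : ℕ => PowerSeries.coeff j (GG (N + k) * (GG N)⁻¹))
    atTop (nhds (PowerSeries.coeff j (AA k)))

/-- JOB PERT: limit of the quotients, perturbed denominators. -/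
def S_PERT : Prop :=
  ∀ (k : ℕ), 1 ≤ k → ∀ η > (0 : ℝ), ∃ N₀ : ℕ, ∀ N ≥ N₀, ∀ w : ℕ → ℝ, w 0 = 1 →
    (∀ j ≤ k, |w j - uu N j| ≤ 2 * (((k : ℝ) + k ^ 2) / N) ^ (3 * k + 3)) →
    ∃ e : ℕ → ℝ, e 0 = 1 ∧ (∀ j ≤ k, |e j - PowerSeries.coeff j (AA k)| ≤ η) ∧
      ∀ j ≤ k, ∑ i ∈ range (j + 1), e i * (N.choose (j - i) : ℝ) * w (j - i)
        = ((N + k).choose j : ℝ) * uu (N + k) j

/-- JOB ROOTS: coefficients close to those of the Chebyshev polynomial come from `k` numbers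
in `[-1,1]`. -/
def S_ROOTS : Prop :=
  ∀ (k : ℕ), 1 ≤ k → ∃ η > (0 : ℝ), ∀ e : ℕ → ℝ, e 0 = 1 →
    (∀ j ≤ k, |e j - PowerSeries.coeff j (AA k)| ≤ η) →
    ∃ μ : Fin k → ℝ, (∀ t, |μ t| ≤ 1) ∧
      ∀ j ≤ k, ∑ T ∈ (univ : Finset (Fin k)).powersetCard j, ∏ t ∈ T, μ t = e j

/-! ### recursion -/

/-- JOB JOIN: bisection and shuffles of the halves give a shuffle. -/
def S_JOIN : Prop :=
  ∀ (I : Type) [Fintype I] [DecidableEq I] (k a b : ℕ), k ≤ Fintype.card I → Has k I a →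
    (∃ ℓ : List (Op (Bool × I)), Ok ℓ ∧ Bis k ℓ ∧ ℓ.length ≤ b) →
    Has k (Bool × I) (b + 2 * a)

/-- JOB TRANS: transport along an equivalence. -/
def S_TRANS : Prop :=
  ∀ (α β : Type) [DecidableEq α] [DecidableEq β] (_ : α ≃ β) (k m : ℕ), Has k α m → Has k β m

/-- JOB STEP: the recursion. -/
def S_STEP : Prop :=
  ∀ k : ℕ, 1 ≤ k → ∃ N₀ C : ℕ, ∀ n ≥ N₀, ∀ a m : ℕ, Has k (Fin (n / 2)) a →
    Has (k / 2) (Fin (n / 2 - k)) m → Has k (Fin n) (2 * a + C * (m + n))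

/-- JOB BOUND: `O(n (log n) ^ (1 + log k))`. -/
def S_BOUND : Prop :=
  ∀ k : ℕ, 1 ≤ k → ∃ C : ℕ, ∀ n : ℕ, Has k (Fin n) (C * (n * (Nat.log 2 n + 1) ^ (Nat.log 2 k + 1)))

/-- JOB PROB: from expectations to probabilities. -/
def S_PROB : Prop :=
  ∀ k n m : ℕ, k ≤ n → Has k (Fin n) m → ∃ l ∈ lengths k n, l ≤ m

/-- JOB FINAL: the asymptotic form. -/
def S_FINAL : Prop :=
  ∀ k : ℕ, 1 ≤ k →
    (∃ C : ℝ, ∀ n : ℕ, 2 ≤ n → k ≤ n → (lengths k n).Nonempty ∧
      (Uall k n : ℝ) ≤ C * (n * Real.log n ^ (Nat.log 2 k + 1))) ∧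
    ∀ ε : ℝ, 0 < ε → (fun n : ℕ => (Uall k n : ℝ)) =O[atTop] (fun n : ℕ => (n : ℝ) ^ (1 + ε))

end Pool.Agent.Q173.KS
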